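import Pool.Agent.W662.CB.Stmts

/-!
# CB-E5: the isometry J
-/

set_option autoImplicit false

open MeasureTheory Filter Topology Complex
open scoped InnerProductSpace ENNReal

namespace Pool.Agent.W554.CB

open Pool.Agent.W662.CB

theorem e5 : S_E5 := by
  intro H _ _ _ W hW
  have hs : MeasurableSet (Set.Icc (0 : ℝ) W) := measurableSet_Icc
  have hμs : (volume : Measure ℝ) (Set.Icc (0 : ℝ) W) ≠ ∞ := by
    rw [Real.volume_Icc]; exact ENNReal.ofReal_ne_top
  set c : ℂ := (((Real.sqrt W)⁻¹ : ℝ) : ℂ) with hc
  have hsq : 0 < Real.sqrt W := Real.sqrt_pos.2 hW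
  -- the linear map
  let J0 : H →ₗ[ℂ] LR H :=
    { toFun := fun v => indicatorConstLp 2 hs hμs (c • v)
      map_add' := fun v w => by rw [indicatorConstLp_add, smul_add]
      map_smul' := fun a v => by
        rw [RingHom.id_apply]
        apply Lp.ext
        refine (indicatorConstLp_coeFn).trans ?_
        refine EventuallyEq.trans ?_ (Lp.coeFn_smul a _).symm
        filter_upwards [indicatorConstLp_coeFn (p := 2) (hs := hs) (hμs := hμs) (c := c • v)]
          with x hx
        rw [Pi.smul_apply, hx]
        by_cases h : x ∈ Set.Icc (0 : ℝ) W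
        · rw [Set.indicator_of_mem h, Set.indicator_of_mem h, smul_comm]
        · rw [Set.indicator_of_notMem h, Set.indicator_of_notMem h, smul_zero] }
  have hJ0 : ∀ v, J0 v = indicatorConstLp 2 hs hμs (c • v) := fun v => rfl
  have hnorm : ∀ v, ‖J0 v‖ = ‖v‖ := by
    intro v
    rw [hJ0, norm_indicatorConstLp (by norm_num) (by norm_num), norm_smul, hc,
      Complex.norm_real, Real.norm_of_nonneg (inv_nonneg.2 hsq.le), measureReal_def,
      Real.volume_Icc, sub_zero, ENNReal.toReal_ofReal hW.le]
    have : W ^ (1 / (2 : ℝ≥0∞).toReal) = Real.sqrt W := by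
      rw [Real.sqrt_eq_rpow]; norm_num
    rw [this]
    field_simp
  let J : H →L[ℂ] LR H := J0.mkContinuous 1 (fun v => by rw [hnorm, one_mul])
  have hJ : ∀ v, J v = indicatorConstLp 2 hs hμs (c • v) := fun v => rfl
  refine ⟨J, fun v => ?_, fun v => ?_, fun f => ?_⟩
  · rw [hJ]
    exact indicatorConstLp_coeFn
  · have h := (ContinuousLinearMap.norm_map_iff_adjoint_comp_self J).1 hnorm
    exact congrArg (fun T : H →L[ℂ] H => T v) h
  · refine ext_inner_left ℂ fun v => ?_
    rw [ContinuousLinearMap.adjoint_inner_right, hJ,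
      L2.inner_indicatorConstLp_eq_inner_setIntegral ℂ hs hμs (c • v) f, inner_smul_left,
      inner_smul_right, hc, Complex.conj_ofReal]

end Pool.Agent.W554.CB
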